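import Pool.Agent.Helper17.SLD.Goals
import Pool.Agent.Helper12.SL.GA7

/-! Packet FRAME of project SLD. -/

namespace Pool.Agent.Helper17.SLD.PkFRAME

open Pool.Agent.Helper17.SL Pool.Agent.Helper42.SLC
open Pool.Agent.Helper51.SigLeo Pool.Agent.Helper51.SixExp NumberField Module TensorProduct

universe u v w

theorem thm : S_FRAME.{u, v, w} := by
  classical
  intro F _ _ N _ _ _ _ _ p _ k _ _ _ Λ n σ σ' hn hσ hσ'
  have hchar : CharZero k := charZero_of_padic p (k := k)
  have hfd : FiniteDimensional F N := Module.Finite.of_restrictScalars_finite ℚ F N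
  have hcard : Fintype.card (Fin n) = Fintype.card (F →+* k) := by
    rw [Fintype.card_fin, NumberField.Embeddings.card F k, hn]
  let a : Fin n ≃ (F →+* k) :=
    Equiv.ofBijective _ ((Fintype.bijective_iff_injective_and_card _).2 ⟨hσ, hcard⟩)
  let b : Fin n ≃ (F →+* k) :=
    Equiv.ofBijective _ ((Fintype.bijective_iff_injective_and_card _).2 ⟨hσ', hcard⟩)
  let π : Equiv.Perm (Fin n) := a.trans b.symm
  have hπ : ∀ m, (σ m).comp (algebraMap F N) = (σ' (π m)).comp (algebraMap F N) := by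
    intro m
    have h1 : b (π m) = a m := b.apply_symm_apply (a m)
    exact h1.symm
  have hg : ∀ m, ∃ g : N ≃ₐ[F] N, σ' (π m) = (σ m).comp (g : N →+* N) := fun m ↦
    PkGA7.thm.{u, v, w} F N k (σ m) (σ' (π m)) (hπ m)
  choose g hg using hg
  refine ⟨π, g, fun θ v m ↦ ?_⟩
  show tw θ (logUnits Λ (σ' (π m))) v = _ * tw θ (logUnits Λ (σ m)) v
  rw [hg m, tw_logUnits_comp]

end Pool.Agent.Helper17.SLD.PkFRAME
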